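import Mathlib

set_option autoImplicit false

/-!
# A non-minimal M-system which is not Li-Yorke sensitive
-/

open Set Filter Topology Function

namespace Pool.Agent.Results.MP_6bd6f6_an.NonLiYorkeMSystem

/-- The standing assumptions: `X` is a compact metric space with more than one point and without
isolated points and `T` is a continuous surjection. -/
structure IsSystem {X : Type} [MetricSpace X] (T : X → X) : Prop where
  compact : CompactSpace X
  nontrivial : Nontrivial X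
  perfect : ∀ x : X, ¬ IsOpen ({x} : Set X)
  cont : Continuous T
  surj : Surjective T

/-- A minimal set: nonempty, closed, invariant and without proper nonempty closed invariant
subset. -/
def IsMinimalSet {X : Type} [TopologicalSpace X] (T : X → X) (M : Set X) : Prop :=
  IsClosed M ∧ M.Nonempty ∧ MapsTo T M M ∧
    ∀ N : Set X, IsClosed N → N.Nonempty → MapsTo T N N → N ⊆ M → N = M

/-- Topological transitivity. -/
def IsTransitive {X : Type} [TopologicalSpace X] (T : X → X) : Prop :=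
  ∀ U V : Set X, IsOpen U → U.Nonempty → IsOpen V → V.Nonempty →
    ∃ n : ℕ, (U ∩ T^[n] ⁻¹' V).Nonempty

/-- An M-system: transitive with a dense set of minimal points. -/
def IsMSystem {X : Type} [TopologicalSpace X] (T : X → X) : Prop :=
  IsTransitive T ∧ Dense {x : X | ∃ M : Set X, IsMinimalSet T M ∧ x ∈ M}

/-- Li-Yorke sensitivity. -/
def LiYorkeSensitive {X : Type} [MetricSpace X] (T : X → X) : Prop :=
  ∃ δ : ℝ, 0 < δ ∧ ∀ x : X, ∀ U ∈ 𝓝 x, ∃ y ∈ U,
    liminf (fun n : ℕ => dist (T^[n] x) (T^[n] y)) atTop = 0 ∧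
    δ < limsup (fun n : ℕ => dist (T^[n] x) (T^[n] y)) atTop

/-! ### The space -/

noncomputable section

/-- The condition on a pair `(z, w)`: if `2^n` divides `z + i` and `w (i + n) = 1` then
`w i = 1`. -/
def Good (p : ℤ_[2] × (ℤ → Bool)) : Prop :=
  ∀ (i : ℤ) (n : ℕ), (2 : ℤ_[2]) ^ n ∣ p.1 + i → p.2 (i + n) = true → p.2 i = true

/-- The phase space. -/
abbrev Xs : Type := {p : ℤ_[2] × (ℤ → Bool) // Good p}

lemma dvd_iff_norm (n : ℕ) (y : ℤ_[2]) : (2 : ℤ_[2]) ^ n ∣ y ↔ ‖y‖ ≤ (2 : ℝ) ^ (-n : ℤ) := by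
  have h := PadicInt.norm_le_pow_iff_mem_span_pow (p := 2) y n
  rw [Ideal.mem_span_singleton] at h
  exact_mod_cast h.symm

lemma dvd_int (n : ℕ) (a : ℤ) : (2 : ℤ_[2]) ^ n ∣ (a : ℤ_[2]) ↔ (2 : ℤ) ^ n ∣ a := by
  have h := PadicInt.pow_p_dvd_int_iff (p := 2) n a
  exact_mod_cast h

lemma isClopen_dvd (n : ℕ) : IsClopen {y : ℤ_[2] | (2 : ℤ_[2]) ^ n ∣ y} := by
  have h : {y : ℤ_[2] | (2 : ℤ_[2]) ^ n ∣ y} = Metric.closedBall 0 ((2 : ℝ) ^ (-n : ℤ)) := by
    ext y
    rw [mem_ofPred_eq, dvd_iff_norm, Metric.mem_closedBall, dist_zero_right]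
  rw [h]
  exact IsUltrametricDist.isClopen_closedBall 0 (by positivity)

lemma isClosed_good : IsClosed {p : ℤ_[2] × (ℤ → Bool) | Good p} := by
  have h : {p : ℤ_[2] × (ℤ → Bool) | Good p} =
      ⋂ (i : ℤ) (n : ℕ), ({p | (2 : ℤ_[2]) ^ n ∣ p.1 + i} ∩ {p | p.2 (i + n) = true} ∩
        {p | p.2 i = true}ᶜ)ᶜ := by
    ext p
    simp only [mem_ofPred_eq, Good, mem_iInter, mem_compl_iff, mem_inter_iff, not_and, not_not,
      and_imp]
  rw [h]
  refine isClosed_iInter fun i => isClosed_iInter fun n => IsOpen.isClosed_compl ?_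
  refine (IsOpen.inter ?_ ?_).inter ?_
  · exact (isClopen_dvd n).isOpen.preimage (f := fun p : ℤ_[2] × (ℤ → Bool) => p.1 + (i : ℤ_[2]))
      (by fun_prop)
  · exact (isOpen_discrete {true}).preimage (f := fun p : ℤ_[2] × (ℤ → Bool) => p.2 (i + n))
      (by fun_prop)
  · rw [isOpen_compl_iff]
    exact (isClosed_discrete {true}).preimage (f := fun p : ℤ_[2] × (ℤ → Bool) => p.2 i)
      (by fun_prop)

instance : CompactSpace Xs := isCompact_iff_compactSpace.mp isClosed_good.isCompact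

/-- The map on the product. -/
def shiftMap (m : ℤ) (p : ℤ_[2] × (ℤ → Bool)) : ℤ_[2] × (ℤ → Bool) :=
  (p.1 + m, fun i => p.2 (i + m))

lemma shiftMap_good (m : ℤ) {p : ℤ_[2] × (ℤ → Bool)} (hp : Good p) : Good (shiftMap m p) := by
  intro i n h1 h2
  refine hp (i + m) n ?_ ?_
  · simp only [shiftMap] at h1
    push_cast
    rwa [show p.1 + ((i : ℤ_[2]) + m) = p.1 + m + i by ring]
  · simp only [shiftMap] at h2
    rwa [show i + m + n = i + n + m by ring]

/-- The homeomorphism. -/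
def Th : Xs ≃ₜ Xs where
  toFun p := ⟨shiftMap 1 p.1, shiftMap_good 1 p.2⟩
  invFun p := ⟨shiftMap (-1) p.1, shiftMap_good (-1) p.2⟩
  left_inv p := by
    apply Subtype.ext
    simp [shiftMap]
  right_inv p := by
    apply Subtype.ext
    simp [shiftMap]
  continuous_toFun := by
    apply Continuous.subtype_mk
    unfold shiftMap
    fun_prop
  continuous_invFun := by
    apply Continuous.subtype_mk
    unfold shiftMap
    fun_prop

lemma Th_iter (n : ℕ) (p : Xs) : ((Th^[n] p : Xs) : ℤ_[2] × (ℤ → Bool)) = shiftMap n p.1 := by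
  induction n with
  | zero => simp [shiftMap]
  | succ n ih =>
    rw [iterate_succ_apply']
    show shiftMap 1 (Th^[n] p).1 = _
    rw [ih]
    simp only [shiftMap]
    push_cast
    refine Prod.ext ?_ ?_
    · simp only
      ring
    · funext i
      show p.1.2 (i + 1 + n) = p.1.2 (i + (n + 1))
      rw [show i + 1 + (n : ℤ) = i + (n + 1) by ring]

/-- `y` is in the cylinder of `x` of length `K`. -/
def Near (K : ℕ) (x y : Xs) : Prop :=
  (2 : ℤ_[2]) ^ K ∣ y.1.1 - x.1.1 ∧ ∀ i : ℤ, -K ≤ i → i ≤ K → y.1.2 i = x.1.2 i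

lemma exists_near {x : Xs} {U : Set Xs} (hU : U ∈ 𝓝 x) : ∃ K : ℕ, ∀ y, Near K x y → y ∈ U := by
  by_contra hcon
  push Not at hcon
  choose y hy hyU using hcon
  have hlim : Tendsto y atTop (𝓝 x) := by
    rw [tendsto_subtype_rng, nhds_prod_eq, ]
    apply Tendsto.prodMk
    · rw [tendsto_iff_norm_sub_tendsto_zero]
      refine squeeze_zero (fun _ => norm_nonneg _) (fun K => (dvd_iff_norm K _).mp (hy K).1) ?_
      have : (fun K : ℕ => (2 : ℝ) ^ (-K : ℤ)) = fun K : ℕ => (1 / 2 : ℝ) ^ K := by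
        funext K
        simp
      rw [this]
      exact tendsto_pow_atTop_nhds_zero_of_lt_one (by norm_num) (by norm_num)
    · rw [tendsto_pi_nhds]
      intro i
      apply tendsto_const_nhds.congr'
      filter_upwards [eventually_ge_atTop i.natAbs] with K hK
      exact ((hy K).2 i (by omega) (by omega)).symm
  obtain ⟨K, hK⟩ := (hlim.eventually hU).exists
  exact hyU K hK

/-! ### Two constructions -/

lemma exists_nat (y : ℤ_[2]) (N B : ℕ) : ∃ m : ℕ, B < m ∧ (2 : ℤ_[2]) ^ N ∣ y - m := by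
  have h := PadicInt.appr_spec (p := 2) N y
  rw [Ideal.mem_span_singleton] at h
  refine ⟨y.appr N + 2 ^ N * (B + 1), ?_, ?_⟩
  · have : 1 ≤ 2 ^ N := Nat.one_le_two_pow
    nlinarith
  · push_cast
    rw [← sub_sub]
    exact dvd_sub (by exact_mod_cast h) (Dvd.intro _ rfl)

/-- The first divisibility argument: nothing to the left of `m` sees a point to the right of
`m`. -/
lemma no_cross {m i : ℤ} {n : ℕ} (h : (2 : ℤ) ^ n ∣ i - m) (h1 : i < m) : i + n < m := by
  by_contra hcon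
  push Not at hcon
  have h2 : (2 : ℤ) ^ n ∣ m - i := by
    have := (dvd_neg.mpr h)
    rwa [neg_sub] at this
  have h3 := Int.le_of_dvd (by omega) h2
  have h4 : (n : ℤ) < 2 ^ n := by exact_mod_cast Nat.lt_two_pow_self
  omega

lemma dvd_transfer {x : Xs} {K : ℕ} {m i : ℤ} {n : ℕ} (hm : (2 : ℤ_[2]) ^ (2 * K) ∣ x.1.1 + m)
    (hn : n ≤ 2 * K) (h : (2 : ℤ) ^ n ∣ i - m) : (2 : ℤ_[2]) ^ n ∣ x.1.1 + i := by
  have h1 := (dvd_int n (i - m)).mpr h
  have h2 : (2 : ℤ_[2]) ^ n ∣ x.1.1 + m := (pow_dvd_pow 2 hn).trans hm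
  have := dvd_add h2 h1
  push_cast at this
  rwa [show x.1.1 + (m : ℤ_[2]) + (i - m) = x.1.1 + i by ring] at this

/-- the word used in the proof of transitivity -/
def w12 (x₁ x₂ : Xs) (K m n : ℕ) (i : ℤ) : Bool :=
  if i < -K then true else if i ≤ K then x₁.1.2 i else if i < m then false else
    if i < n - K then true else if i ≤ n + K then x₂.1.2 (i - n) else false

lemma good12 (x₁ x₂ : Xs) (K m n : ℕ) (hKm : K < m) (hmn : m + K < n)
    (h₁ : (2 : ℤ_[2]) ^ (2 * K) ∣ x₁.1.1 + m) (h₂ : (2 : ℤ_[2]) ^ (2 * K) ∣ x₂.1.1 + m - n) :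
    Good (-(m : ℤ_[2]), w12 x₁ x₂ K m n) := by
  intro i k h3 h4
  simp only at h3 h4 ⊢
  have h5 : (2 : ℤ) ^ k ∣ i - m := by
    rw [← dvd_int]
    push_cast
    rwa [show (i : ℤ_[2]) - m = -m + i by ring]
  unfold w12 at h4 ⊢
  by_cases c1 : i < -K
  · rw [if_pos c1]
  rw [if_neg c1]
  by_cases c2 : i < m
  · have h6 := no_cross h5 c2
    rw [if_neg (by omega)] at h4
    by_cases c3 : i + k ≤ K
    · rw [if_pos c3] at h4
      rw [if_pos (by omega)]
      exact x₁.2 i k (dvd_transfer (by exact_mod_cast h₁) (by omega) h5) h4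
    · rw [if_neg c3, if_pos h6] at h4
      exact absurd h4 (by simp)
  · rw [if_neg (by omega), if_neg c2]
    by_cases c3 : i < n - K
    · rw [if_pos c3]
    · rw [if_neg c3]
      rw [if_neg (by omega), if_neg (by omega), if_neg (by omega), if_neg (by omega)] at h4
      by_cases c4 : i + k ≤ n + K
      · rw [if_pos c4] at h4
        rw [if_pos (by omega)]
        refine x₂.2 (i - n) k ?_ ?_
        · have h6 : (2 : ℤ_[2]) ^ (2 * K) ∣ x₂.1.1 + ((m - n : ℤ) : ℤ_[2]) := by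
            push_cast
            rwa [show x₂.1.1 + ((m : ℤ_[2]) - n) = x₂.1.1 + m - n by ring]
          exact dvd_transfer h6 (by omega) (by rwa [show i - n - (m - n : ℤ) = i - m by ring])
        · rwa [show i - (n : ℤ) + k = i + k - n by ring]
      · rw [if_neg c4] at h4
        exact absurd h4 (by simp)

lemma transitive : IsTransitive (Th : Xs → Xs) := by
  intro U V hU hUn hV hVn
  obtain ⟨x₁, hx₁⟩ := hUn
  obtain ⟨x₂, hx₂⟩ := hVn
  obtain ⟨K₁, hK₁⟩ := exists_near (hU.mem_nhds hx₁)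
  obtain ⟨K₂, hK₂⟩ := exists_near (hV.mem_nhds hx₂)
  set K := max K₁ K₂ with hK
  obtain ⟨m, hm, hmd⟩ := exists_nat (-x₁.1.1) (2 * K) K
  obtain ⟨n, hn, hnd⟩ := exists_nat (x₂.1.1 + m) (2 * K) (m + K)
  have hmd' : (2 : ℤ_[2]) ^ (2 * K) ∣ x₁.1.1 + m := by
    have := dvd_neg.mpr hmd
    rwa [show -(-x₁.1.1 - (m : ℤ_[2])) = x₁.1.1 + m by ring] at this
  have hg := good12 x₁ x₂ K m n hm hn hmd' hnd
  refine ⟨n, ⟨⟨_, hg⟩, hK₁ _ ⟨?_, ?_⟩, hK₂ _ ⟨?_, ?_⟩⟩⟩
  · have h1 : (2 : ℤ_[2]) ^ K₁ ∣ (2 : ℤ_[2]) ^ (2 * K) := pow_dvd_pow 2 (by omega)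
    have := dvd_neg.mpr (h1.trans hmd')
    rwa [show -(x₁.1.1 + (m : ℤ_[2])) = -m - x₁.1.1 by ring] at this
  · intro i hi1 hi2
    show w12 x₁ x₂ K m n i = _
    unfold w12
    rw [if_neg (by omega), if_pos (by omega)]
  · rw [Th_iter]
    have h1 : (2 : ℤ_[2]) ^ K₂ ∣ (2 : ℤ_[2]) ^ (2 * K) := pow_dvd_pow 2 (by omega)
    have := dvd_neg.mpr (h1.trans hnd)
    show (2 : ℤ_[2]) ^ K₂ ∣ -(m : ℤ_[2]) + (n : ℤ) - x₂.1.1
    push_cast
    rwa [show -(x₂.1.1 + (m : ℤ_[2]) - n) = -m + n - x₂.1.1 by ring] at this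
  · intro i hi1 hi2
    rw [Th_iter]
    show w12 x₁ x₂ K m n (i + n) = _
    unfold w12
    rw [if_neg (by omega), if_neg (by omega), if_neg (by omega), if_neg (by omega),
      if_pos (by omega), add_sub_cancel_right]

/-- the letter of the periodic word at a residue class -/
def bet (x : Xs) (K m Q : ℕ) (c : ZMod (2 ^ Q)) : Bool :=
  let t : ℤ := ((c + K : ZMod (2 ^ Q)).val : ℤ) - K
  if (m : ℤ) ≤ t then true else if t ≤ K then x.1.2 t else false

lemma bet_int (x : Xs) (K m Q : ℕ) (i : ℤ) (t : ℤ) (q : ℤ) (hi : i = t + 2 ^ Q * q)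
    (h1 : -K ≤ t) (h2 : t < 2 ^ Q - K) :
    bet x K m Q (i : ZMod (2 ^ Q)) =
      if (m : ℤ) ≤ t then true else if t ≤ K then x.1.2 t else false := by
  have h3 : ((i : ZMod (2 ^ Q)) + K : ZMod (2 ^ Q)) = ((t + K : ℤ) : ZMod (2 ^ Q)) := by
    rw [hi]
    push_cast
    have : ((2 : ZMod (2 ^ Q)) ^ Q) = 0 := by
      have := ZMod.natCast_self (2 ^ Q)
      push_cast at this
      exact this
    rw [this]
    ring
  have h4 : (((i : ZMod (2 ^ Q)) + K : ZMod (2 ^ Q)).val : ℤ) = t + K := by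
    rw [h3, ZMod.val_intCast]
    push_cast
    exact Int.emod_eq_of_lt (by omega) (by omega)
  unfold bet
  simp only [h4, add_sub_cancel_right]

lemma good_per (x : Xs) (K m Q : ℕ) (hQ : m + K < 2 ^ Q)
    (h₁ : (2 : ℤ_[2]) ^ (2 * K) ∣ x.1.1 + m) :
    Good (-(m : ℤ_[2]), fun i : ℤ => bet x K m Q (i : ZMod (2 ^ Q))) := by
  have hQ' : ((m : ℤ) + K) < 2 ^ Q := by exact_mod_cast hQ
  intro i n h3 h4
  simp only at h3 h4 ⊢
  have h5 : (2 : ℤ) ^ n ∣ i - m := by
    rw [← dvd_int]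
    push_cast
    rwa [show (i : ℤ_[2]) - m = -m + i by ring]
  have hpos : (0 : ℤ) < 2 ^ Q := by positivity
  set t : ℤ := (i + K) % 2 ^ Q - K with ht
  set q : ℤ := (i + K) / 2 ^ Q with hq
  have hi : i = t + 2 ^ Q * q := by
    have := Int.emod_add_mul_ediv (i + K) (2 ^ Q)
    linarith
  have ht1 : -K ≤ t := by
    have := Int.emod_nonneg (i + K) hpos.ne'
    omega
  have ht2 : t < 2 ^ Q - K := by
    have := Int.emod_lt_of_pos (i + K) hpos
    omega
  rw [bet_int x K m Q i t q hi ht1 ht2]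
  by_cases c1 : (m : ℤ) ≤ t
  · rw [if_pos c1]
  rw [if_neg c1]
  push Not at c1
  have hnQ : n < Q := by
    by_contra hcon
    push Not at hcon
    have h6 : (2 : ℤ) ^ Q ∣ i - m := (pow_dvd_pow 2 hcon).trans h5
    have h7 : (2 : ℤ) ^ Q ∣ m - t := by
      have h8 := dvd_sub (Dvd.intro q rfl : (2 : ℤ) ^ Q ∣ 2 ^ Q * q) h6
      rwa [show 2 ^ Q * q - (i - m) = m - t by rw [hi]; ring] at h8
    have h9 := Int.le_of_dvd (by omega) h7
    omega
  have h6 : (2 : ℤ) ^ n ∣ t - m := by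
    have h7 : (2 : ℤ) ^ n ∣ 2 ^ Q * q := (pow_dvd_pow 2 hnQ.le).trans (Dvd.intro q rfl)
    have h8 := dvd_sub h5 h7
    rwa [show i - m - 2 ^ Q * q = t - m by rw [hi]; ring] at h8
  have h7 := no_cross h6 c1
  have h8 : i + n = (t + n) + 2 ^ Q * q := by rw [hi]; ring
  have h9 := bet_int x K m Q (i + n) (t + n) q h8 (by omega) (by omega)
  push_cast at h9 h4
  rw [h9, if_neg (by omega)] at h4
  by_cases c2 : t + n ≤ K
  · rw [if_pos c2] at h4
    rw [if_pos (by omega)]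
    exact x.2 t n (dvd_transfer (by exact_mod_cast h₁) (by omega) h6) h4
  · rw [if_neg c2] at h4
    exact absurd h4 (by simp)

/-! ### Minimal points -/

lemma continuous_toZModPow (Q : ℕ) :
    Continuous (fun y : ℤ_[2] => (PadicInt.toZModPow Q y : ZMod (2 ^ Q))) := by
  apply IsLocallyConstant.continuous
  rw [IsLocallyConstant.iff_eventually_eq]
  intro y₀
  have h1 : {y : ℤ_[2] | (2 : ℤ_[2]) ^ Q ∣ y - y₀} ∈ 𝓝 y₀ := by
    apply IsOpen.mem_nhds
    · exact (isClopen_dvd Q).isOpen.preimage (f := fun y : ℤ_[2] => y - y₀) (by fun_prop)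
    · simp
  filter_upwards [h1] with y hy
  have h2 : y - y₀ ∈ RingHom.ker (PadicInt.toZModPow (p := 2) Q) := by
    rw [PadicInt.ker_toZModPow, Ideal.mem_span_singleton]
    exact_mod_cast hy
  rw [RingHom.mem_ker, map_sub, sub_eq_zero] at h2
  exact h2

/-- the orbit closure of the periodic point, as a map of the odometer to the product -/
def ph (x : Xs) (K m Q : ℕ) (y : ℤ_[2]) : ℤ_[2] × (ℤ → Bool) :=
  (-(m : ℤ_[2]) + y, fun i : ℤ => bet x K m Q (PadicInt.toZModPow Q y + (i : ZMod (2 ^ Q))))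

lemma ph_cont (x : Xs) (K m Q : ℕ) : Continuous (ph x K m Q) := by
  unfold ph
  refine (continuous_const.add continuous_id).prodMk (continuous_pi fun i => ?_)
  exact (continuous_of_discreteTopology (f := fun c : ZMod (2 ^ Q) =>
    bet x K m Q (c + (i : ZMod (2 ^ Q))))).comp (continuous_toZModPow Q)

lemma ph_good (x : Xs) (K m Q : ℕ) (hQ : m + K < 2 ^ Q)
    (h₁ : (2 : ℤ_[2]) ^ (2 * K) ∣ x.1.1 + m) (y : ℤ_[2]) : Good (ph x K m Q y) := by
  refine PadicInt.denseRange_natCast.induction_on (p := fun y => Good (ph x K m Q y)) y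
    (isClosed_good.preimage (ph_cont x K m Q)) fun a => ?_
  have h2 := shiftMap_good a (good_per x K m Q hQ h₁)
  have h3 : ph x K m Q a = shiftMap a (-(m : ℤ_[2]), fun i : ℤ => bet x K m Q (i : ZMod (2 ^ Q))) := by
    unfold ph shiftMap
    refine Prod.ext ?_ ?_
    · simp
    · funext i
      simp only [map_natCast]
      congr 1
      push_cast
      ring
  rw [h3]
  exact h2

lemma minimal_range (x : Xs) (K m Q : ℕ) (hQ : m + K < 2 ^ Q)
    (h₁ : (2 : ℤ_[2]) ^ (2 * K) ∣ x.1.1 + m) :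
    IsMinimalSet (Th : Xs → Xs)
      (range fun y : ℤ_[2] => (⟨ph x K m Q y, ph_good x K m Q hQ h₁ y⟩ : Xs)) := by
  set φ : ℤ_[2] → Xs := fun y => ⟨ph x K m Q y, ph_good x K m Q hQ h₁ y⟩ with hφ
  have hc : Continuous φ := (ph_cont x K m Q).subtype_mk _
  have hT : ∀ y, Th (φ y) = φ (y + 1) := by
    intro y
    apply Subtype.ext
    show shiftMap 1 (ph x K m Q y) = ph x K m Q (y + 1)
    unfold ph shiftMap
    refine Prod.ext ?_ ?_
    · simp only
      push_cast
      ring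
    · funext i
      simp only [map_add, map_one]
      congr 1
      push_cast
      ring
  refine ⟨(isCompact_range hc).isClosed, range_nonempty φ, ?_, ?_⟩
  · rintro _ ⟨y, rfl⟩
    exact ⟨y + 1, (hT y).symm⟩
  · intro N hN hNn hNT hNM
    refine Subset.antisymm hNM ?_
    obtain ⟨p, hp⟩ := hNn
    obtain ⟨y₀, rfl⟩ := hNM hp
    have h2 : ∀ a : ℕ, φ (y₀ + a) ∈ N := by
      intro a
      induction a with
      | zero => simpa using hp
      | succ a ih =>
        have := hNT ih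
        rw [hT] at this
        push_cast
        rwa [← add_assoc]
    have h3 : ∀ y, φ (y₀ + y) ∈ N := by
      intro y
      refine PadicInt.denseRange_natCast.induction_on (p := fun y => φ (y₀ + y) ∈ N) y
        (hN.preimage (hc.comp (continuous_const.add continuous_id))) h2
    rintro _ ⟨y, rfl⟩
    have := h3 (y - y₀)
    rwa [add_sub_cancel] at this

lemma minimal_near (x : Xs) (K m : ℕ) (hKm : K < m) (h₁ : (2 : ℤ_[2]) ^ (2 * K) ∣ x.1.1 + m) :
    ∃ y : Xs, Near K x y ∧ y.1.1 = -m ∧ ∃ M : Set Xs, IsMinimalSet (Th : Xs → Xs) M ∧ y ∈ M := by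
  have hQ : m + K < 2 ^ (m + K) := Nat.lt_two_pow_self
  have hQ' : ((m : ℤ) + K) < 2 ^ (m + K) := by exact_mod_cast hQ
  refine ⟨⟨ph x K m (m + K) 0, ph_good x K m (m + K) hQ h₁ 0⟩, ⟨?_, ?_⟩, ?_,
    _, minimal_range x K m (m + K) hQ h₁, ⟨0, rfl⟩⟩
  · have h2 : (2 : ℤ_[2]) ^ K ∣ (2 : ℤ_[2]) ^ (2 * K) := pow_dvd_pow 2 (by omega)
    have := dvd_neg.mpr (h2.trans h₁)
    show (2 : ℤ_[2]) ^ K ∣ -(m : ℤ_[2]) + 0 - x.1.1
    rwa [show -(x.1.1 + (m : ℤ_[2])) = -m + 0 - x.1.1 by ring] at this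
  · intro i hi1 hi2
    show bet x K m (m + K) (PadicInt.toZModPow (m + K) 0 + (i : ZMod (2 ^ (m + K)))) = _
    rw [map_zero, zero_add, bet_int x K m (m + K) i i 0 (by ring) hi1 (by omega),
      if_neg (by omega), if_pos hi2]
  · show -(m : ℤ_[2]) + 0 = -m
    rw [add_zero]

lemma exists_m (x : Xs) (K B : ℕ) : ∃ m : ℕ, B < m ∧ (2 : ℤ_[2]) ^ (2 * K) ∣ x.1.1 + m := by
  obtain ⟨m, hm, hmd⟩ := exists_nat (-x.1.1) (2 * K) B
  refine ⟨m, hm, ?_⟩
  have := dvd_neg.mpr hmd
  rwa [show -(-x.1.1 - (m : ℤ_[2])) = x.1.1 + m by ring] at this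

lemma dense_minimal : Dense {x : Xs | ∃ M : Set Xs, IsMinimalSet (Th : Xs → Xs) M ∧ x ∈ M} := by
  rw [dense_iff_inter_open]
  intro U hU hUn
  obtain ⟨x, hx⟩ := hUn
  obtain ⟨K, hK⟩ := exists_near (hU.mem_nhds hx)
  obtain ⟨m, hm, hmd⟩ := exists_m x K K
  obtain ⟨y, hy, _, hyM⟩ := minimal_near x K m hm hmd
  exact ⟨y, hK y hy, hyM⟩

lemma perfect (x : Xs) : ¬ IsOpen ({x} : Set Xs) := by
  intro hx
  obtain ⟨K, hK⟩ := exists_near (hx.mem_nhds rfl)
  obtain ⟨m, hm, hmd⟩ := exists_m x K K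
  obtain ⟨m', hm', hmd'⟩ := exists_m x K m
  obtain ⟨y, hy, hy1, _⟩ := minimal_near x K m hm hmd
  obtain ⟨y', hy', hy1', _⟩ := minimal_near x K m' (hm.trans hm') hmd'
  have e1 : y = x := hK y hy
  have e2 : y' = x := hK y' hy'
  rw [e1] at hy1
  rw [e2, hy1, neg_inj] at hy1'
  have : m = m' := by exact_mod_cast hy1'
  omega

/-- the point `(0, 0)` -/
def x0 : Xs := ⟨(0, fun _ => false), fun _ _ _ h => absurd h (by simp)⟩

/-- the point `(0, 1)` -/
def x1 : Xs := ⟨(0, fun _ => true), fun _ _ _ _ => rfl⟩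

lemma x0_ne_x1 : x0 ≠ x1 := by
  intro h
  have := congrArg (fun p : Xs => p.1.2 0) h
  simp [x0, x1] at this

lemma not_minimal : ¬ IsMinimalSet (Th : Xs → Xs) univ := by
  rintro ⟨_, _, _, h⟩
  have h2 := h {p : Xs | p.1.2 = fun _ => false} ?_ ⟨x0, rfl⟩ ?_ (subset_univ _)
  · have : x1 ∈ {p : Xs | p.1.2 = fun _ => false} := by
      rw [h2]
      trivial
    have := congrFun (show x1.1.2 = fun _ => false from this) 0
    simp [x1] at this
  · exact isClosed_eq (by fun_prop) continuous_const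
  · intro p hp
    have hp' : p.1.2 = fun _ => false := hp
    show (shiftMap 1 p.1).2 = fun _ => false
    unfold shiftMap
    simp only [hp']

/-! ### Proximal points near `(0, 0)` are asymptotic to `(0, 0)` -/

lemma asym {y : Xs} (hy0 : y.1.2 0 = false) (hy : y.1.1 = 0) :
    Tendsto (fun n : ℕ => (Th^[n] x0, Th^[n] y)) atTop (uniformity Xs) := by
  have hz : ∀ j : ℤ, 0 ≤ j → y.1.2 j = false := by
    intro j hj
    by_contra hcon
    rw [Bool.not_eq_false] at hcon
    have := y.2 0 j.toNat (by rw [hy]; simp) (by rw [zero_add, Int.toNat_of_nonneg hj]; exact hcon)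
    rw [hy0] at this
    exact absurd this (by simp)
  rw [uniformity_subtype, tendsto_comap_iff, uniformity_prod, tendsto_inf, tendsto_comap_iff,
    tendsto_comap_iff, Pi.uniformity, tendsto_iInf]
  constructor
  · have h1 : (fun p : (ℤ_[2] × (ℤ → Bool)) × (ℤ_[2] × (ℤ → Bool)) => (p.1.1, p.2.1)) ∘
        ((fun q : Xs × Xs => (q.1.1, q.2.1)) ∘ fun n : ℕ => (Th^[n] x0, Th^[n] y)) =
        fun n : ℕ => ((n : ℤ_[2]), (n : ℤ_[2])) := by
      funext n
      simp only [comp_apply, Th_iter, shiftMap, hy, x0]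
      simp
    rw [h1]
    exact tendsto_diag_uniformity _ _
  · intro i
    rw [tendsto_comap_iff]
    have h1 : ∀ᶠ n : ℕ in atTop, ((fun a : (ℤ → Bool) × (ℤ → Bool) => (a.1 i, a.2 i)) ∘
        ((fun p : (ℤ_[2] × (ℤ → Bool)) × (ℤ_[2] × (ℤ → Bool)) => (p.1.2, p.2.2)) ∘
        ((fun q : Xs × Xs => (q.1.1, q.2.1)) ∘ fun n : ℕ => (Th^[n] x0, Th^[n] y)))) n =
        (fun _ : ℕ => (false, false)) n := by
      filter_upwards [eventually_ge_atTop i.natAbs] with n hn
      simp only [comp_apply, Th_iter, shiftMap, x0]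
      rw [hz _ (by omega)]
    refine (tendsto_congr' h1).mpr ?_
    exact tendsto_diag_uniformity _ _

end

/-- There is an M-system given by a homeomorphism `T` of a compact metric space which is not
minimal and not Li-Yorke sensitive. In fact there are a point `x` and a neighbourhood `U` of `x`
such that every `y` in `U` with `liminf d(T^n x, T^n y) = 0` satisfies
`lim d(T^n x, T^n y) = 0`. -/
theorem result : ∃ (X : Type) (_ : MetricSpace X) (T : X ≃ₜ X),
    IsSystem (T : X → X) ∧ IsMSystem (T : X → X) ∧ ¬ IsMinimalSet (T : X → X) univ ∧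
    ¬ LiYorkeSensitive (T : X → X) ∧
    ∃ x : X, ∃ U ∈ 𝓝 x, ∀ y ∈ U,
      liminf (fun n : ℕ => dist (T^[n] x) (T^[n] y)) atTop = 0 →
      Tendsto (fun n : ℕ => dist (T^[n] x) (T^[n] y)) atTop (𝓝 0) := by
  have hcb : (uniformity Bool).IsCountablyGenerated := by
    rw [DiscreteUniformity.eq_principal_setRelId]
    infer_instance
  have hcg : (uniformity Xs).IsCountablyGenerated := by
    rw [uniformity_subtype]
    infer_instance
  let _ : MetricSpace Xs := UniformSpace.metricSpace Xs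
  have key : ∃ x : Xs, ∃ U ∈ 𝓝 x, ∀ y ∈ U,
      liminf (fun n : ℕ => dist (Th^[n] x) (Th^[n] y)) atTop = 0 →
      Tendsto (fun n : ℕ => dist (Th^[n] x) (Th^[n] y)) atTop (𝓝 0) := by
    refine ⟨x0, {p : Xs | p.1.2 0 = false}, ?_, ?_⟩
    · apply IsOpen.mem_nhds
      · exact (isOpen_discrete {false}).preimage (f := fun p : Xs => p.1.2 0) (by fun_prop)
      · rfl
    · intro y hy hlim
      refine tendsto_uniformity_iff_dist_tendsto_zero.mp (asym hy ?_)
      by_contra hne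
      have hpos : 0 < ‖y.1.1‖ := norm_pos_iff.mpr hne
      have huc : UniformContinuous (fun p : Xs => p.1.1) :=
        CompactSpace.uniformContinuous_of_continuous (by fun_prop)
      obtain ⟨δ, hδ, h1⟩ := Metric.uniformContinuous_iff.mp huc ‖y.1.1‖ hpos
      have h2 : ∃ᶠ n : ℕ in atTop, dist (Th^[n] x0) (Th^[n] y) < δ := by
        apply frequently_lt_of_liminf_lt
        · have hb : IsBoundedUnder (· ≤ ·) atTop
              (fun n : ℕ => dist (Th^[n] x0) (Th^[n] y)) := by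
            refine isBoundedUnder_of ⟨Metric.diam (univ : Set Xs), fun n => ?_⟩
            exact Metric.dist_le_diam_of_mem isCompact_univ.isBounded (mem_univ _) (mem_univ _)
          exact hb.isCoboundedUnder_ge
        · rw [hlim]
          exact hδ
      obtain ⟨n, hn⟩ := h2.exists
      have h3 := h1 hn
      simp only [Th_iter, shiftMap, x0] at h3
      rw [dist_eq_norm] at h3
      simp at h3
  refine ⟨Xs, inferInstance, Th, ⟨inferInstance, ⟨x0, x1, x0_ne_x1⟩, perfect, Th.continuous,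
    Th.surjective⟩, ⟨transitive, dense_minimal⟩, not_minimal, ?_, key⟩
  rintro ⟨δ, hδ, h⟩
  obtain ⟨x, U, hU, hxU⟩ := key
  obtain ⟨y, hy, h1, h2⟩ := h x U hU
  rw [(hxU y hy h1).limsup_eq] at h2
  linarith

end Pool.Agent.Results.MP_6bd6f6_an.NonLiYorkeMSystem
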